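import Pool.Agent.helper3.T6R.Spec

set_option autoImplicit false

/-!
# Row t6r:RSZ (MP_16912e_nt): sizes of the elements of a `Full` in a real quadratic field
-/

namespace Pool.Agent.T6R

open Finset NumberField Pool.Agent.helper3.FT Pool.Agent.helper47.RA Pool.Agent.T5 Pool.Agent.T6
open scoped nonZeroDivisors

theorem RSZ_alg (A B V W x y uA uB vA vB z l : ℝ) (hA : 0 < A) (hB : 0 < B) (hV : 0 < V) (hW : 0 < W)
    (hz : 0 < z) (hl : 0 < l) (n1 : (V * A ^ 2) * (W * B ^ 2) = z ^ 2 * l) (n2 : x * y = z * l ^ 2)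
    (e3 : (V * A ^ 2) ^ 2 * y = l ^ 2 * A ^ 5) (e3' : (W * B ^ 2) ^ 2 * x = l ^ 2 * B ^ 5)
    (e1 : (V * A ^ 2) * y = l * uA) (e1' : (W * B ^ 2) * x = l * uB)
    (e2 : (V * A ^ 2) * x = z * vA) (e2' : (W * B ^ 2) * y = z * vB) :
    A * B = z ∧ V * W = l ∧ x = B * V ^ 2 ∧ y = A * W ^ 2 ∧ uA = A ^ 3 * W ∧ uB = B ^ 3 * V ∧
      vA = A * V ^ 3 ∧ vB = B * W ^ 3 := by
  have h5 : (A * B) ^ 5 = z ^ 5 := by
    have h1 : l ^ 4 * (A * B) ^ 5 = l ^ 4 * z ^ 5 := by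
      calc l ^ 4 * (A * B) ^ 5 = (l ^ 2 * A ^ 5) * (l ^ 2 * B ^ 5) := by ring
        _ = ((V * A ^ 2) ^ 2 * y) * ((W * B ^ 2) ^ 2 * x) := by rw [e3, e3']
        _ = ((V * A ^ 2) * (W * B ^ 2)) ^ 2 * (x * y) := by ring
        _ = (z ^ 2 * l) ^ 2 * (z * l ^ 2) := by rw [n1, n2]
        _ = l ^ 4 * z ^ 5 := by ring
    exact mul_left_cancel₀ (by positivity) h1
  have hAB : A * B = z := by
    have h2 : (0 : ℝ) ≤ A * B := by positivity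
    exact (pow_left_inj₀ h2 hz.le (by norm_num)).mp h5
  have hVW : V * W = l := by
    have h3 : z ^ 2 * (V * W) = z ^ 2 * l := by
      rw [← n1, ← hAB]
      ring
    exact mul_left_cancel₀ (by positivity) h3
  have hy : y = A * W ^ 2 := by
    have h4 : (V * A ^ 2) ^ 2 * y = (V * A ^ 2) ^ 2 * (A * W ^ 2) := by
      rw [e3, ← hVW]
      ring
    exact mul_left_cancel₀ (by positivity) h4
  have hx : x = B * V ^ 2 := by
    have h4 : (W * B ^ 2) ^ 2 * x = (W * B ^ 2) ^ 2 * (B * V ^ 2) := by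
      rw [e3', ← hVW]
      ring
    exact mul_left_cancel₀ (by positivity) h4
  refine ⟨hAB, hVW, hx, hy, ?_, ?_, ?_, ?_⟩
  · have h4 : l * uA = l * (A ^ 3 * W) := by
      rw [← e1, hy, ← hVW]
      ring
    exact mul_left_cancel₀ hl.ne' h4
  · have h4 : l * uB = l * (B ^ 3 * V) := by
      rw [← e1', hx, ← hVW]
      ring
    exact mul_left_cancel₀ hl.ne' h4
  · have h4 : z * vA = z * (A * V ^ 3) := by
      rw [← e2, hx, ← hAB]
      ring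
    exact mul_left_cancel₀ hz.ne' h4
  · have h4 : z * vB = z * (B * W ^ 3) := by
      rw [← e2', hy, ← hAB]
      ring
    exact mul_left_cancel₀ hz.ne' h4

theorem RSZ_bounds (A B V W P R S q : ℝ) (hA : 0 < A) (hB : 0 < B) (hV : 0 < V) (hW : 0 < W) (hP : 0 < P) (hR : 0 < R)
    (hS : S = A ^ 2 + B ^ 2) (hq : q = V ^ 2 + W ^ 2) (hP2 : P ^ 2 = S) (hR2 : R ^ 2 = q) :
    V * A ^ 2 + W * B ^ 2 ≤ S * R ∧ B * V ^ 2 + A * W ^ 2 ≤ P * q ∧ A ^ 3 * W + B ^ 3 * V ≤ S * P * R ∧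
      A * V ^ 3 + B * W ^ 3 ≤ P * (q * R) ∧ A * B ≤ S ∧ V * W ≤ q := by
  have hAP : A ≤ P := by
    apply le_of_sq_le_sq _ hP.le
    rw [hP2, hS]
    nlinarith [sq_nonneg B]
  have hBP : B ≤ P := by
    apply le_of_sq_le_sq _ hP.le
    rw [hP2, hS]
    nlinarith [sq_nonneg A]
  have hVR : V ≤ R := by
    apply le_of_sq_le_sq _ hR.le
    rw [hR2, hq]
    nlinarith [sq_nonneg W]
  have hWR : W ≤ R := by
    apply le_of_sq_le_sq _ hR.le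
    rw [hR2, hq]
    nlinarith [sq_nonneg V]
  refine ⟨?_, ?_, ?_, ?_, ?_, ?_⟩
  · rw [hS]
    have h1 : V * A ^ 2 ≤ R * A ^ 2 := mul_le_mul_of_nonneg_right hVR (sq_nonneg A)
    have h2 : W * B ^ 2 ≤ R * B ^ 2 := mul_le_mul_of_nonneg_right hWR (sq_nonneg B)
    linarith
  · rw [hq]
    have h1 : B * V ^ 2 ≤ P * V ^ 2 := mul_le_mul_of_nonneg_right hBP (sq_nonneg V)
    have h2 : A * W ^ 2 ≤ P * W ^ 2 := mul_le_mul_of_nonneg_right hAP (sq_nonneg W)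
    linarith
  · have h1 : A ^ 3 * W ≤ A ^ 2 * (P * R) := by
      have h2 : A ^ 3 * W = A ^ 2 * (A * W) := by ring
      rw [h2]
      exact mul_le_mul_of_nonneg_left (mul_le_mul hAP hWR hW.le hP.le) (sq_nonneg A)
    have h3 : B ^ 3 * V ≤ B ^ 2 * (P * R) := by
      have h2 : B ^ 3 * V = B ^ 2 * (B * V) := by ring
      rw [h2]
      exact mul_le_mul_of_nonneg_left (mul_le_mul hBP hVR hV.le hP.le) (sq_nonneg B)
    rw [hS]
    linarith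
  · have h1 : A * V ^ 3 ≤ P * (V ^ 2 * R) := by
      have h2 : A * V ^ 3 = A * (V ^ 2 * V) := by ring
      rw [h2]
      exact mul_le_mul hAP (mul_le_mul_of_nonneg_left hVR (sq_nonneg V)) (by positivity) hP.le
    have h3 : B * W ^ 3 ≤ P * (W ^ 2 * R) := by
      have h2 : B * W ^ 3 = B * (W ^ 2 * W) := by ring
      rw [h2]
      exact mul_le_mul hBP (mul_le_mul_of_nonneg_left hWR (sq_nonneg W)) (by positivity) hP.le
    rw [hq]
    linarith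
  · rw [hS]
    nlinarith [sq_nonneg (A - B), sq_nonneg A, sq_nonneg B]
  · rw [hq]
    nlinarith [sq_nonneg (V - W), sq_nonneg V, sq_nonneg W]

theorem RSZ_real (bA bB gA gB uA uB vA vB tA tB Z L : ℝ) (Z0 : Z ≠ 0) (L0 : L ≠ 0)
    (E1A : bA * gB = L * uA) (E1B : bB * gA = L * uB) (E2A : bA * gA = Z * vA) (E2B : bB * gB = Z * vB)
    (E3A : bA ^ 2 * gB = L ^ 2 * tA) (E3B : bB ^ 2 * gA = L ^ 2 * tB) (Nb : bA * bB = Z ^ 2 * L) (Ng : gA * gB = Z * L ^ 2)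
    (A B S q : ℝ) (hAd : A = |tA| ^ (1 / 5 : ℝ)) (hBd : B = |tB| ^ (1 / 5 : ℝ)) (hS : S = A ^ 2 + B ^ 2)
    (hq : q = (bA / A ^ 2) ^ 2 + (bB / B ^ 2) ^ 2) :
    (0 < A ∧ 0 < B ∧ A * B = |Z| ∧ 0 < S ∧ 0 < q) ∧ (|uA| + |uB| ≤ S * √S * √q ∧ |vA| + |vB| ≤ √S * (q * √q)) ∧
      (|Z| ≤ S ∧ |L| ≤ q) ∧ (|bA| + |bB| ≤ S * √q ∧ |gA| + |gB| ≤ √S * q) ∧
      B * (bA / A ^ 2) ^ 2 = |gA| ∧ A * (bB / B ^ 2) ^ 2 = |gB| := by
  have nb : bA * bB ≠ 0 := by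
    rw [Nb]
    exact mul_ne_zero (pow_ne_zero _ Z0) L0
  have ng : gA * gB ≠ 0 := by
    rw [Ng]
    exact mul_ne_zero Z0 (pow_ne_zero _ L0)
  have bA0 : bA ≠ 0 := left_ne_zero_of_mul nb
  have bB0 : bB ≠ 0 := right_ne_zero_of_mul nb
  have gA0 : gA ≠ 0 := left_ne_zero_of_mul ng
  have gB0 : gB ≠ 0 := right_ne_zero_of_mul ng
  have tA0 : tA ≠ 0 := by
    intro h
    rw [h, mul_zero] at E3A
    exact mul_ne_zero (pow_ne_zero 2 bA0) gB0 E3A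
  have tB0 : tB ≠ 0 := by
    intro h
    rw [h, mul_zero] at E3B
    exact mul_ne_zero (pow_ne_zero 2 bB0) gA0 E3B
  have hA : 0 < A := by
    rw [hAd]
    exact Real.rpow_pos_of_pos (abs_pos.mpr tA0) _
  have hB : 0 < B := by
    rw [hBd]
    exact Real.rpow_pos_of_pos (abs_pos.mpr tB0) _
  have hA5 : A ^ 5 = |tA| := by
    rw [hAd, ← Real.rpow_natCast, ← Real.rpow_mul (abs_nonneg _)]
    norm_num
  have hB5 : B ^ 5 = |tB| := by
    rw [hBd, ← Real.rpow_natCast, ← Real.rpow_mul (abs_nonneg _)]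
    norm_num
  have hA2 : 0 < A ^ 2 := by positivity
  have hB2 : 0 < B ^ 2 := by positivity
  have hV : 0 < |bA / A ^ 2| := abs_pos.mpr (div_ne_zero bA0 hA2.ne')
  have hW : 0 < |bB / B ^ 2| := abs_pos.mpr (div_ne_zero bB0 hB2.ne')
  have hVA : |bA / A ^ 2| * A ^ 2 = |bA| := by
    rw [abs_div, abs_of_pos hA2, div_mul_cancel₀ _ hA2.ne']
  have hWB : |bB / B ^ 2| * B ^ 2 = |bB| := by
    rw [abs_div, abs_of_pos hB2, div_mul_cancel₀ _ hB2.ne']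
  obtain ⟨r1, r2, r3, r4, r5, r6, r7, r8⟩ := RSZ_alg A B |bA / A ^ 2| |bB / B ^ 2| |gA| |gB| |uA| |uB| |vA| |vB|
    |Z| |L| hA hB hV hW (abs_pos.mpr Z0) (abs_pos.mpr L0)
    (by rw [hVA, hWB, ← abs_mul, Nb, abs_mul, abs_pow])
    (by rw [← abs_mul, Ng, abs_mul, abs_pow])
    (by rw [hVA, hA5, ← abs_pow, ← abs_mul, E3A, abs_mul, abs_pow])
    (by rw [hWB, hB5, ← abs_pow, ← abs_mul, E3B, abs_mul, abs_pow])
    (by rw [hVA, ← abs_mul, E1A, abs_mul])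
    (by rw [hWB, ← abs_mul, E1B, abs_mul])
    (by rw [hVA, ← abs_mul, E2A, abs_mul])
    (by rw [hWB, ← abs_mul, E2B, abs_mul])
  have hS0 : 0 < S := by rw [hS]; positivity
  have hq2 : q = |bA / A ^ 2| ^ 2 + |bB / B ^ 2| ^ 2 := by
    rw [hq, sq_abs, sq_abs]
  have hq0 : 0 < q := by rw [hq2]; positivity
  obtain ⟨k1, k2, k3, k4, k5, k6⟩ := RSZ_bounds A B |bA / A ^ 2| |bB / B ^ 2| (√S) (√q) S q hA hB hV hW
    (Real.sqrt_pos.mpr hS0) (Real.sqrt_pos.mpr hq0) hS hq2 (Real.sq_sqrt hS0.le) (Real.sq_sqrt hq0.le)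
  refine ⟨⟨hA, hB, r1, hS0, hq0⟩, ⟨?_, ?_⟩, ⟨?_, ?_⟩, ⟨?_, ?_⟩, ?_, ?_⟩
  · rw [r5, r6]
    exact k3
  · rw [r7, r8]
    exact k4
  · rw [← r1]
    exact k5
  · rw [← r2]
    exact k6
  · rw [← hVA, ← hWB]
    exact k1
  · rw [r3, r4]
    exact k2
  · rw [r3, sq_abs]
  · rw [r4, sq_abs]

theorem RSZ (hREM : REM_stmt) : RSZ_stmt := by
  intro K _ _ Q hD F
  obtain ⟨⟨f, g, hf, hg⟩, hcj, hY, _⟩ := hREM K Q hD
  have hAc : ∀ a, emA Q (Q.cj a) = emB Q a := fun a => (hcj a).1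
  have hBc : ∀ a, emB Q (Q.cj a) = emA Q a := fun a => (hcj a).2
  have Z0 : (F.Z : ℝ) ≠ 0 := by exact_mod_cast F.hZ
  have L0 : (F.Λ : ℝ) ≠ 0 := by exact_mod_cast F.hΛ
  have E1A : emA Q F.β * emB Q F.γ = F.Λ * emA Q F.u := by
    have h := congrArg f F.e1
    rw [map_mul, map_mul, map_intCast, hf, hf, hf, hAc] at h
    exact h
  have E1B : emB Q F.β * emA Q F.γ = F.Λ * emB Q F.u := by
    have h := congrArg g F.e1
    rw [map_mul, map_mul, map_intCast, hg, hg, hg, hBc] at h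
    exact h
  have E2A : emA Q F.β * emA Q F.γ = F.Z * emA Q F.v := by
    have h := congrArg f F.e2
    rw [map_mul, map_mul, map_intCast, hf, hf, hf] at h
    exact h
  have E2B : emB Q F.β * emB Q F.γ = F.Z * emB Q F.v := by
    have h := congrArg g F.e2
    rw [map_mul, map_mul, map_intCast, hg, hg, hg] at h
    exact h
  have E3A : emA Q F.β ^ 2 * emB Q F.γ = (F.Λ : ℝ) ^ 2 * emA Q F.α := by
    have h := congrArg f F.e3
    rw [map_mul, map_mul, map_pow, map_pow, map_intCast, hf, hf, hf, hAc] at h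
    exact h
  have E3B : emB Q F.β ^ 2 * emA Q F.γ = (F.Λ : ℝ) ^ 2 * emB Q F.α := by
    have h := congrArg g F.e3
    rw [map_mul, map_mul, map_pow, map_pow, map_intCast, hg, hg, hg, hBc] at h
    exact h
  have Nb : emA Q F.β * emB Q F.β = (F.Z : ℝ) ^ 2 * F.Λ := by
    have h := congrArg f F.nβ
    rw [map_mul, map_mul, map_pow, map_intCast, map_intCast, hf, hf, hAc] at h
    exact h
  have Ng : emA Q F.γ * emB Q F.γ = (F.Z : ℝ) * (F.Λ : ℝ) ^ 2 := by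
    have h := congrArg f F.nγ
    rw [map_mul, map_mul, map_pow, map_intCast, map_intCast, hf, hf, hAc] at h
    exact h
  have hYa : ∀ a, |(Q.Y a : ℝ)| * √(Q.D : ℝ) = |emA Q a - emB Q a| := by
    intro a
    rw [hY a, abs_mul, abs_of_nonneg (Real.sqrt_nonneg _)]
  obtain ⟨c1, ⟨c2, c3⟩, c4, ⟨c5, c6⟩, c7, c8⟩ := RSZ_real _ _ _ _ _ _ _ _ _ _ _ _ Z0 L0 E1A E1B E2A E2B E3A E3B Nb Ng
    (xA Q F.α) (xB Q F.α) (sz Q F.α) (qf Q F.α F.β) rfl rfl rfl rfl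
  refine ⟨c1, ⟨?_, ?_, ?_, ?_⟩, c4, ⟨c5, c6⟩, ?_⟩
  · rw [hYa]
    exact le_trans (abs_sub _ _) c5
  · rw [hYa]
    exact le_trans (abs_sub _ _) c6
  · rw [hYa]
    exact le_trans (abs_sub _ _) c2
  · rw [hYa]
    exact le_trans (abs_sub _ _) c3
  · rw [hYa, c7, c8]
    exact abs_abs_sub_abs_le _ _

end Pool.Agent.T6R
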